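import Pool.Agent.N452.QF.Sm

/-!
# Families of quadrics over affine spaces, over the line, and over arbitrary bases
-/

set_option autoImplicit false

namespace Pool.Agent.N452.QF

open Matrix Topology Filter Pool.Agent.TH729.SQ Pool.Agent.H581R2 Pool.Agent.R847.QB

/-- Semialgebraic sets defined over `ℚ`: the finite unions of sets
`{p = 0, q₁ > 0, …, q_k > 0}`, where `p` and the `qᵢ` are polynomials with rational
coefficients. -/
def Semialgebraic {n : ℕ} (S : Set (Fin n → ℝ)) : Prop :=
  ∃ (m : ℕ) (P : Fin m → MvPolynomial (Fin n) ℚ) (G : Fin m → Finset (MvPolynomial (Fin n) ℚ)),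
    S = {x : Fin n → ℝ | ∃ j : Fin m, (MvPolynomial.aeval x (P j) : ℝ) = 0 ∧
      ∀ g ∈ G j, (0 : ℝ) < MvPolynomial.aeval x g}

theorem sa_iff {n : ℕ} (S : Set (Fin n → ℝ)) : Semialgebraic S ↔ SA S := by
  constructor
  · rintro ⟨m, P, G, rfl⟩
    refine SAP.exists_fin (p := fun (j : Fin m) (x : Fin n → ℝ) => (MvPolynomial.aeval x (P j) : ℝ) = 0 ∧
      ∀ g ∈ G j, (0 : ℝ) < MvPolynomial.aeval x g) fun j => ?_
    refine SAP.and (SAP.eq_zero (PF.aeval _)) ?_
    exact SAP.forall_mem (G j) fun g _ => SAP.pos (PF.aeval _)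
  · exact SA.frozen

/-- The set `{x | ∃ u ∈ D, x = fun k => (u k : ℝ)}` is `rv '' D`. -/
theorem image_eq {N : ℕ} (D : Set (Fin N → ℚ)) :
    {x : Fin N → ℝ | ∃ u ∈ D, x = fun k => (u k : ℝ)} = rv '' D := by
  ext x
  constructor
  · rintro ⟨u, hu, rfl⟩
    exact ⟨u, hu, rfl⟩
  · rintro ⟨u, hu, rfl⟩
    exact ⟨u, hu, rfl⟩

/-- The closure in `ℝ^N` of the set `D` of rational points is semialgebraic over `ℚ`. -/
def Tame {N : ℕ} (D : Set (Fin N → ℚ)) : Prop :=
  Semialgebraic (closure {x : Fin N → ℝ | ∃ u ∈ D, x = fun k => (u k : ℝ)})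

theorem tame_iff {N : ℕ} (D : Set (Fin N → ℚ)) : Tame D ↔ SA (closure (rv '' D)) := by
  unfold Tame
  rw [sa_iff, image_eq]

theorem tame_finite {N : ℕ} {D : Set (Fin N → ℚ)} (h : D.Finite) : Tame D := by
  rw [tame_iff, (h.image rv).isClosed.closure_eq]
  refine SAP.congr (SA.finite_rat h) fun x => ?_
  constructor
  · rintro ⟨r, hr, rfl⟩
    exact ⟨r, hr, fun i => rfl⟩
  · rintro ⟨r, hr, h⟩
    exact ⟨r, hr, (funext h).symm⟩

variable {n m : ℕ}

/-- The vector `(1, y₁, …, y_m)`. -/
noncomputable def coordinates (n m : ℕ) : Fin (m + 1) → MvPolynomial (Fin (n + m)) ℚ :=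
  Fin.cons 1 fun j => MvPolynomial.X (Fin.natAdd n j)

/-- The polynomial `∑ A_ij(t) Y_i Y_j`, `Y = (1, y₁, …, y_m)`, in the variables `(t, y)`. -/
noncomputable def equation (A : PM n m) : MvPolynomial (Fin (n + m)) ℚ :=
  ∑ i, ∑ j, MvPolynomial.rename (Fin.castAdd m) (A i j) * coordinates n m i * coordinates n m j

theorem aeval_equation (A : PM n m) (x : Fin (n + m) → ℝ) :
    (MvPolynomial.aeval x (equation A) : ℝ) = vl A (bs x) (fb x) := by
  have hc : ∀ i, (MvPolynomial.aeval x (coordinates n m i) : ℝ) = fb x i := by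
    intro i
    refine Fin.cases ?_ (fun j => ?_) i
    · simp [coordinates, fb]
    · simp [coordinates, fb]
  have hA : ∀ i j, (MvPolynomial.aeval x (MvPolynomial.rename (Fin.castAdd m) (A i j)) : ℝ) =
      atr A (bs x) i j := by
    intro i j
    rw [MvPolynomial.aeval_rename]
    rfl
  unfold equation vl
  simp only [map_sum, map_mul, hc, hA, Matrix.mulVec, dotProduct, Finset.mul_sum]
  refine Finset.sum_congr rfl fun i _ => Finset.sum_congr rfl fun j _ => ?_
  ring

theorem eval_equation (A : PM n m) (x : Fin (n + m) → ℚ) :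
    MvPolynomial.eval x (equation A) = fb x ⬝ᵥ atq A (bs x) *ᵥ fb x := by
  have h1 := aeval_equation A (rv x)
  have h2 : (MvPolynomial.aeval (rv x) (equation A) : ℝ) =
      ((MvPolynomial.eval x (equation A) : ℚ) : ℝ) := aeval_cast x _
  have h3 : vl A (bs (rv x)) (fb (rv x)) = ((fb x ⬝ᵥ atq A (bs x) *ᵥ fb x : ℚ) : ℝ) := by
    unfold vl
    rw [fb_rv, bs_rv, atr_rv, rv_mulVec, rv_dot]
  rw [h2, h3] at h1
  exact_mod_cast h1

/-- The rational points of the family over `B`. -/
def points (A : PM n m) (B : Set (Fin n → ℚ)) : Set (Fin (n + m) → ℚ) :=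
  {x | (fun i => x (Fin.castAdd m i)) ∈ B ∧ MvPolynomial.eval x (equation A) = 0}

theorem points_eq (A : PM n m) (B : Set (Fin n → ℚ)) : points A B = pts A B := by
  ext x
  unfold points pts
  simp only [Set.mem_ofPred_eq, eval_equation]
  rfl

/-- **density in the real points which are nonsingular and whose fibre is not everything** -/
theorem real_lim {A : PM n m} (hA : A.IsSymm) {r : ℕ} (hr : 5 ≤ r)
    (hne : ∃ t, r ≤ (atq A t).rank) (hmax : ∀ t, (atq A t).rank ≤ r) (x : Fin (n + m) → ℝ)
    (hx : (MvPolynomial.aeval x (equation A) : ℝ) = 0) (hA0 : atr A (bs x) ≠ 0)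
    (hs : ∃ k, (MvPolynomial.aeval x (MvPolynomial.pderiv k (equation A)) : ℝ) ≠ 0) :
    x ∈ closure (rv '' pts A {b | (atq A b).rank = r}) := by
  rw [aeval_equation] at hx
  refine smooth_lim hA hr hne hmax x hx hA0 ?_
  by_cases hker : atr A (bs x) *ᵥ fb x = 0
  · right
    obtain ⟨k, hk⟩ := hs
    have hd := hasDerivAt_line (equation A) x k
    simp only [aeval_equation] at hd
    induction k using Fin.addCases with
    | left i =>
      refine ⟨i, _, hk, ?_⟩
      have e : (fun s : ℝ => vl A (bs (Function.update x (Fin.castAdd m i) (x (Fin.castAdd m i) + s)))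
          (fb (Function.update x (Fin.castAdd m i) (x (Fin.castAdd m i) + s)))) =
          fun s : ℝ => vl A (Function.update (bs x) i (bs x i + s)) (fb x) := by
        funext s
        congr 1
        · funext l
          by_cases hl : l = i
          · subst hl
            simp [bs]
          · rw [Function.update_of_ne hl]
            simp only [bs]
            rw [Function.update_of_ne]
            exact fun h => hl (Fin.castAdd_injective _ _ h)
        · funext l
          refine Fin.cases ?_ (fun j => ?_) l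
          · rfl
          · simp only [fb, Fin.cons_succ]
            rw [Function.update_of_ne]
            intro h
            have := congrArg Fin.val h
            simp at this
            omega
      rwa [e] at hd
    | right j =>
      exfalso
      apply hk
      have e : (fun s : ℝ => vl A (bs (Function.update x (Fin.natAdd n j) (x (Fin.natAdd n j) + s)))
          (fb (Function.update x (Fin.natAdd n j) (x (Fin.natAdd n j) + s)))) =
          fun s : ℝ => vl A (bs x) (Pi.single j.succ 1) * s ^ 2 := by
        funext s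
        have e1 : bs (Function.update x (Fin.natAdd n j) (x (Fin.natAdd n j) + s)) = bs x := by
          funext l
          simp only [bs]
          rw [Function.update_of_ne]
          intro h
          have := congrArg Fin.val h
          simp at this
          omega
        have e2 : fb (Function.update x (Fin.natAdd n j) (x (Fin.natAdd n j) + s)) =
            fb x + s • (Pi.single j.succ (1 : ℝ) : Fin (m + 1) → ℝ) := by
          funext l
          refine Fin.cases ?_ (fun l' => ?_) l
          · simp [fb]
          · simp only [fb, Fin.cons_succ, Pi.add_apply, Pi.smul_apply, smul_eq_mul]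
            by_cases hl : l' = j
            · subst hl
              simp
            · rw [Function.update_of_ne fun h => hl (Fin.natAdd_injective _ _ h),
                Pi.single_eq_of_ne fun h => hl (Fin.succ_injective _ h)]
              ring
        rw [e1, e2, vl_add A hA, hx, hker, dotProduct_zero]
        ring
      rw [e] at hd
      have h0 : HasDerivAt (fun s : ℝ => vl A (bs x) (Pi.single j.succ 1) * s ^ 2) 0 0 := by
        simpa using (hasDerivAt_pow 2 (0 : ℝ)).const_mul (vl A (bs x) (Pi.single j.succ 1))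
      exact hd.unique h0
  · exact Or.inl hker

/-- the exceptional rational points -/
def exceptional (A : PM n m) : Set (Fin (n + m) → ℚ) :=
  {x | MvPolynomial.eval x (equation A) = 0 ∧
    ((∀ k, MvPolynomial.eval x (MvPolynomial.pderiv k (equation A)) = 0) ∨
      A.map (MvPolynomial.eval fun i => x (Fin.castAdd m i)) = 0)}

theorem exists_max (A : PM n m) (h5 : ∃ t, 5 ≤ (atq A t).rank) : ∃ r, 5 ≤ r ∧
    (∃ t, r ≤ (atq A t).rank) ∧ ∀ t, (atq A t).rank ≤ r := by
  have hb : ∀ t, (atq A t).rank ≤ m + 1 := rank_le A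
  obtain ⟨t1, h1⟩ := h5
  have hne : (Set.range fun t => (atq A t).rank).Nonempty := ⟨_, t1, rfl⟩
  have hbd : BddAbove (Set.range fun t => (atq A t).rank) := ⟨m + 1, by rintro _ ⟨t, rfl⟩; exact hb t⟩
  have hmem := Nat.sSup_mem hne hbd
  refine ⟨sSup (Set.range fun t => (atq A t).rank), ?_, ?_, ?_⟩
  · exact h1.trans (le_csSup hbd ⟨t1, rfl⟩)
  · obtain ⟨t, ht⟩ := hmem
    exact ⟨t, ht.ge⟩
  · intro t
    exact le_csSup hbd ⟨t, rfl⟩

/-- **families over affine spaces** -/
theorem affine_base {A : PM n m} (hA : A.IsSymm) (h5 : ∃ t, 5 ≤ (atq A t).rank)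
    (he : Tame (exceptional A)) : Tame (points A Set.univ) := by
  obtain ⟨r, hr, hne, hmax⟩ := exists_max A h5
  rw [tame_iff] at he ⊢
  rw [points_eq]
  have hdense : closure (rv '' {b : Fin n → ℚ | (atq A b).rank = r}) = Set.univ := by
    refine Set.eq_univ_of_forall fun x => ?_
    rw [Metric.mem_closure_iff]
    intro ε hε
    obtain ⟨b, hb, hrk⟩ := dense_rank A hne (t := x) (half_pos hε)
    refine ⟨rv b, ⟨b, le_antisymm (hmax b) hrk, rfl⟩, ?_⟩
    rw [dist_comm]
    refine lt_of_le_of_lt ((dist_pi_le_iff (half_pos hε).le).2 fun i => ?_) (half_lt_self hε)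
    rw [Real.dist_eq]
    exact (hb i).le
  have h1 : SA (closure (rv '' pts A {b | (atq A b).rank = r})) := by
    refine strat deg den_ ker_ hA hr (fun b hb => hb) ?_
    rw [hdense]
    exact SA.univ
  have e : closure (rv '' pts A Set.univ) =
      closure (rv '' pts A {b | (atq A b).rank = r}) ∪ closure (rv '' exceptional A) := by
    apply subset_antisymm
    · refine closure_minimal ?_ (isClosed_closure.union isClosed_closure)
      rintro _ ⟨x, hx, rfl⟩
      by_cases hex : x ∈ exceptional A
      · exact Or.inr (subset_closure ⟨x, hex, rfl⟩)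
      · left
        have hx0 : MvPolynomial.eval x (equation A) = 0 := by
          rw [eval_equation]; exact hx.2
        have hex' : ¬ ((∀ k, MvPolynomial.eval x (MvPolynomial.pderiv k (equation A)) = 0) ∨
            A.map (MvPolynomial.eval fun i => x (Fin.castAdd m i)) = 0) := fun h => hex ⟨hx0, h⟩
        push Not at hex'
        obtain ⟨⟨k, hk⟩, hA0⟩ := hex'
        refine real_lim hA hr hne hmax (rv x) ?_ ?_ ⟨k, ?_⟩
        · have : (MvPolynomial.aeval (rv x) (equation A) : ℝ) =
              ((MvPolynomial.eval x (equation A) : ℚ) : ℝ) := aeval_cast x _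
          rw [this, hx0, Rat.cast_zero]
        · rw [bs_rv, atr_rv]
          intro h
          apply hA0
          ext i j
          have h2 : ((MvPolynomial.eval (bs x) (A i j) : ℚ) : ℝ) = 0 := congrFun (congrFun h i) j
          have h3 : MvPolynomial.eval (bs x) (A i j) = 0 := by exact_mod_cast h2
          exact h3
        · have : (MvPolynomial.aeval (rv x) (MvPolynomial.pderiv k (equation A)) : ℝ) =
              ((MvPolynomial.eval x (MvPolynomial.pderiv k (equation A)) : ℚ) : ℝ) := aeval_cast x _
          rw [this]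
          exact_mod_cast hk
    · refine Set.union_subset (closure_mono ?_) (closure_mono ?_)
      · rintro _ ⟨x, hx, rfl⟩
        exact ⟨x, ⟨trivial, hx.2⟩, rfl⟩
      · rintro _ ⟨x, hx, rfl⟩
        refine ⟨x, ⟨trivial, ?_⟩, rfl⟩
        rw [← eval_equation]
        exact hx.1
  rw [e]
  exact SA.union h1 he

end Pool.Agent.N452.QF
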