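import Pool.Agent.R847.QB.Line

/-!
# Nonsingular rational points of families of quadrics

A rational point of a family of quadrics of generic rank at least five, which is not a singular point
of the total space and does not lie on a fibre which is everything, is a limit of rational points on
fibres of maximal rank.
-/

set_option autoImplicit false

namespace Pool.Agent.N452.QF

open Matrix Topology Filter Pool.Agent.TH729.SQ Pool.Agent.H581R2 Pool.Agent.R847.QB

section deriv

variable {N : ℕ}

/-- the derivative of a polynomial in the direction of a coordinate -/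
theorem hasDerivAt_line (f : MvPolynomial (Fin N) ℚ) (x : Fin N → ℝ) (k : Fin N) :
    HasDerivAt (fun s : ℝ => (MvPolynomial.aeval (Function.update x k (x k + s)) f : ℝ))
      (MvPolynomial.aeval x (MvPolynomial.pderiv k f)) 0 := by
  classical
  induction f using MvPolynomial.induction_on with
  | C a => simpa using hasDerivAt_const (0 : ℝ) ((algebraMap ℚ ℝ) a)
  | add p q hp hq =>
    simp only [map_add]
    exact hp.add hq
  | mul_X p i hp =>
    have h0 : Function.update x k (x k + 0) = x := by simp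
    have hX : HasDerivAt (fun s : ℝ => (MvPolynomial.aeval (Function.update x k (x k + s))
        (MvPolynomial.X i : MvPolynomial (Fin N) ℚ) : ℝ))
        (MvPolynomial.aeval x (MvPolynomial.pderiv k (MvPolynomial.X i : MvPolynomial (Fin N) ℚ))) 0 := by
      by_cases hik : i = k
      · subst hik
        simp only [MvPolynomial.aeval_X, Function.update_self, MvPolynomial.pderiv_X_self, map_one]
        simpa using (hasDerivAt_id (0 : ℝ)).const_add (x i)
      · simp only [MvPolynomial.aeval_X, Function.update_of_ne hik,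
          MvPolynomial.pderiv_X_of_ne hik, map_zero]
        exact hasDerivAt_const _ _
    have h := hp.mul hX
    simp only [h0] at h
    simp only [map_mul, MvPolynomial.pderiv_mul, map_add]
    exact h

/-- a function with a zero at `0` and a nonzero derivative there takes both signs -/
theorem both_signs {g : ℝ → ℝ} {c : ℝ} (hg : HasDerivAt g c 0) (h0 : g 0 = 0) (hc : c ≠ 0) {δ : ℝ}
    (hδ : 0 < δ) : (∃ s, |s| < δ ∧ g s < 0) ∧ ∃ s, |s| < δ ∧ 0 < g s := by
  have h1 := hasDerivAt_iff_tendsto_slope.1 hg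
  have key : ∀ᶠ s in 𝓝[≠] (0 : ℝ), 0 < c * slope g 0 s := by
    have h2 : Tendsto (fun s => c * slope g 0 s) (𝓝[≠] (0 : ℝ)) (𝓝 (c * c)) := h1.const_mul c
    exact h2.eventually (lt_mem_nhds (mul_self_pos.2 hc))
  rw [eventually_nhdsWithin_iff, Metric.eventually_nhds_iff] at key
  obtain ⟨η, hη, hk⟩ := key
  set e : ℝ := min δ η / 2 with he
  have hm : 0 < min δ η := lt_min hδ hη
  have he0 : 0 < e := by rw [he]; linarith
  have heδ : e < δ := by rw [he]; linarith [min_le_left δ η]
  have heη : e < η := by rw [he]; linarith [min_le_right δ η]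
  have a1 : 0 < c * (g e / e) := by
    have := hk (y := e) (by rwa [Real.dist_eq, sub_zero, abs_of_pos he0]) (by simpa using he0.ne')
    rw [slope_def_field, h0, sub_zero, sub_zero] at this
    exact this
  have a2 : 0 < c * (g (-e) / (-e)) := by
    have := hk (y := -e) (by rw [Real.dist_eq, sub_zero, abs_neg, abs_of_pos he0]; exact heη)
      (by simpa using he0.ne')
    rw [slope_def_field, h0, sub_zero, sub_zero] at this
    exact this
  have b1 : 0 < c * g e := by
    have := mul_pos a1 he0
    rwa [mul_assoc, div_mul_cancel₀ _ he0.ne'] at this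
  have b2 : c * g (-e) < 0 := by
    have h3 : c * (g (-e) / (-e)) * (-e) < 0 := mul_neg_of_pos_of_neg a2 (by linarith)
    rwa [mul_assoc, div_mul_cancel₀ _ (neg_ne_zero.2 he0.ne')] at h3
  have habs : |e| < δ := by rwa [abs_of_pos he0]
  have habs' : |-e| < δ := by rwa [abs_neg, abs_of_pos he0]
  rcases lt_or_gt_of_ne hc with hc' | hc'
  · refine ⟨⟨e, habs, ?_⟩, ⟨-e, habs', ?_⟩⟩
    · nlinarith
    · nlinarith
  · refine ⟨⟨-e, habs', ?_⟩, ⟨e, habs, ?_⟩⟩
    · nlinarith
    · nlinarith

end deriv

section dense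

variable {n m : ℕ}

/-- the fibres of large rank are dense -/
theorem dense_rank (A : PM n m) {r : ℕ} (hne : ∃ t, r ≤ (atq A t).rank) {t : Fin n → ℝ} {ε : ℝ}
    (hε : 0 < ε) : ∃ b : Fin n → ℚ, (∀ i, |(b i : ℝ) - t i| < ε) ∧ r ≤ (atq A b).rank := by
  obtain ⟨t0, ht0⟩ := hne
  obtain ⟨C, D, hCD⟩ := (rank_ge_iff (atq A t0)).1 ht0
  set p : MvPolynomial (Fin n) ℚ :=
    Matrix.det (C.map (MvPolynomial.C : ℚ →+* MvPolynomial (Fin n) ℚ) * A *
      D.map (MvPolynomial.C : ℚ →+* MvPolynomial (Fin n) ℚ)) with hp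
  have hpe : ∀ t, MvPolynomial.eval t p = (C * atq A t * D).det := by
    intro t
    have hC : (C.map (MvPolynomial.C : ℚ →+* MvPolynomial (Fin n) ℚ)).map (MvPolynomial.eval t) = C := by
      ext i j; simp
    have hD : (D.map (MvPolynomial.C : ℚ →+* MvPolynomial (Fin n) ℚ)).map (MvPolynomial.eval t) = D := by
      ext i j; simp
    rw [hp, RingHom.map_det, RingHom.mapMatrix_apply, Matrix.map_mul, Matrix.map_mul, hC, hD]
    rfl
  have hp0 : p ≠ 0 := by
    intro h
    have h1 := hpe t0
    rw [hCD, Matrix.det_one, h, map_zero] at h1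
    exact zero_ne_one h1
  have hinf : ∀ i, {q : ℚ | |(q : ℝ) - t i| < ε}.Infinite := by
    intro i
    obtain ⟨a, ha1, ha2⟩ := exists_rat_btwn (show t i < t i + ε by linarith)
    obtain ⟨b, hb1, hb2⟩ := exists_rat_btwn ha2
    have hab : a < b := by exact_mod_cast hb1
    refine (Set.Ioo_infinite hab).mono ?_
    rintro q ⟨h1, h2⟩
    have h1' : (a : ℝ) < q := by exact_mod_cast h1
    have h2' : (q : ℝ) < b := by exact_mod_cast h2
    show |(q : ℝ) - t i| < ε
    rw [abs_lt]
    constructor <;> linarith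
  obtain ⟨b, hb, hpb⟩ : ∃ b ∈ Set.pi Set.univ fun i => {q : ℚ | |(q : ℝ) - t i| < ε},
      MvPolynomial.eval b p ≠ 0 := by
    by_contra hcon
    push Not at hcon
    apply hp0
    exact MvPolynomial.funext_set (fun i => {q : ℚ | |(q : ℝ) - t i| < ε}) hinf
      (fun x hx => by rw [hcon x hx, map_zero])
  refine ⟨b, fun i => hb i (Set.mem_univ i), ?_⟩
  rw [hpe] at hpb
  have h2 := rank_of_det_ne_zero (A := C * atq A b * D) hpb
  rw [Fintype.card_fin] at h2
  calc r = (C * atq A b * D).rank := h2.symm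
    _ ≤ (atq A b).rank := (rank_mul_le_left _ _).trans (rank_mul_le_right _ _)

/-- the value of the quadratic form -/
noncomputable def vl (A : PM n m) (t : Fin n → ℝ) (v : Fin (m + 1) → ℝ) : ℝ := v ⬝ᵥ atr A t *ᵥ v

theorem vl_continuous_left (A : PM n m) (v : Fin (m + 1) → ℝ) : Continuous fun t => vl A t v := by
  unfold vl
  simp only [Matrix.mulVec, dotProduct]
  have h : ∀ i j, Continuous fun t => atr A t i j := fun i j =>
    (continuous_apply j).comp ((continuous_apply i).comp (atr_continuous A))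
  fun_prop

theorem vl_continuous_right (A : PM n m) (t : Fin n → ℝ) : Continuous fun v => vl A t v := by
  unfold vl
  simp only [Matrix.mulVec, dotProduct]
  fun_prop

theorem vl_add (A : PM n m) (hA : A.IsSymm) (t : Fin n → ℝ) (v w : Fin (m + 1) → ℝ) (s : ℝ) :
    vl A t (v + s • w) = vl A t v + 2 * s * (w ⬝ᵥ atr A t *ᵥ v) + s ^ 2 * vl A t w := by
  have h1 := symm_dot (atr_symm hA t) v w
  simp only [vl, mulVec_add, mulVec_smul, dotProduct_add, add_dotProduct, smul_dotProduct,
    dotProduct_smul, smul_eq_mul, h1]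
  ring

/-- from both signs at a real point of the base to a rational point of a fibre of large rank -/
theorem signs_lim {A : PM n m} (hA : A.IsSymm) {r : ℕ} (hr : 5 ≤ r)
    (hne : ∃ t, r ≤ (atq A t).rank) (hmax : ∀ t, (atq A t).rank ≤ r) (x : Fin (n + m) → ℝ)
    (h : ∀ ε : ℝ, 0 < ε → ∃ (t : Fin n → ℝ) (v1 v2 : Fin (m + 1) → ℝ), v1 0 = 1 ∧ v2 0 = 1 ∧
      (∀ i, |t i - bs x i| < ε) ∧ (∀ j, |v1 j - fb x j| < ε) ∧ (∀ j, |v2 j - fb x j| < ε) ∧
      vl A t v1 < 0 ∧ 0 < vl A t v2) :
    x ∈ closure (rv '' pts A {b | (atq A b).rank = r}) := by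
  rw [Metric.mem_closure_iff]
  intro ε hε
  obtain ⟨t, v1, v2, h10, h20, ht, hv1, hv2, hn, hp⟩ := h (ε / 2) (half_pos hε)
  -- a neighbourhood of `t`
  have e1 : ∀ᶠ t' in 𝓝 t, vl A t' v1 < 0 :=
    (vl_continuous_left A v1).continuousAt.eventually (gt_mem_nhds hn)
  have e2 : ∀ᶠ t' in 𝓝 t, 0 < vl A t' v2 :=
    (vl_continuous_left A v2).continuousAt.eventually (lt_mem_nhds hp)
  obtain ⟨η, hη, hball⟩ := Metric.eventually_nhds_iff.1 (e1.and e2)
  obtain ⟨b, hb, hrk⟩ := dense_rank A hne (t := t) (lt_min (half_pos hη) (half_pos hε))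
  have hbd : dist (rv b) t < η := by
    refine lt_of_le_of_lt ((dist_pi_le_iff (half_pos hη).le).2 fun i => ?_) (half_lt_self hη)
    rw [Real.dist_eq]
    exact ((hb i).trans_le (min_le_left _ _)).le
  obtain ⟨hn', hp'⟩ := hball hbd
  -- a real point of the fibre
  have hcont : ContinuousOn (fun s : ℝ => vl A (rv b) (v1 + s • (v2 - v1))) (Set.Icc 0 1) := by
    refine Continuous.continuousOn ((vl_continuous_right A _).comp ?_)
    fun_prop
  have hI := intermediate_value_Icc (zero_le_one (α := ℝ)) hcont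
  have h0mem : (0 : ℝ) ∈ Set.Icc (vl A (rv b) (v1 + (0 : ℝ) • (v2 - v1)))
      (vl A (rv b) (v1 + (1 : ℝ) • (v2 - v1))) := by
    constructor
    · rw [zero_smul, add_zero]; exact hn'.le
    · rw [one_smul, add_sub_cancel]; exact hp'.le
  obtain ⟨s, ⟨hs0, hs1⟩, hs⟩ := hI h0mem
  set v : Fin (m + 1) → ℝ := v1 + s • (v2 - v1) with hv
  have hv0 : v 0 = 1 := by
    simp [hv, h10, h20]
  have hvd : ∀ j, |v j - fb x j| < ε / 2 := by
    intro j
    have e : v j - fb x j = (1 - s) * (v1 j - fb x j) + s * (v2 j - fb x j) := by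
      simp only [hv, Pi.add_apply, Pi.smul_apply, Pi.sub_apply, smul_eq_mul]
      ring
    rw [e]
    refine lt_of_le_of_lt ?_ (max_lt (hv1 j) (hv2 j))
    have a1 : |v1 j - fb x j| ≤ max |v1 j - fb x j| |v2 j - fb x j| := le_max_left _ _
    have a2 : |v2 j - fb x j| ≤ max |v1 j - fb x j| |v2 j - fb x j| := le_max_right _ _
    calc |(1 - s) * (v1 j - fb x j) + s * (v2 j - fb x j)|
        ≤ |(1 - s) * (v1 j - fb x j)| + |s * (v2 j - fb x j)| := abs_add_le _ _
      _ = (1 - s) * |v1 j - fb x j| + s * |v2 j - fb x j| := by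
          rw [abs_mul, abs_mul, abs_of_nonneg hs0, abs_of_nonneg (sub_nonneg.2 hs1)]
      _ ≤ (1 - s) * max |v1 j - fb x j| |v2 j - fb x j| +
          s * max |v1 j - fb x j| |v2 j - fb x j| := by
          have := sub_nonneg.2 hs1
          gcongr
      _ = _ := by ring
  have hvz : v ⬝ᵥ ((atq A b).map (algebraMap ℚ ℝ)) *ᵥ v = 0 := by
    have := hs
    simp only [vl, atr_rv] at this
    exact this
  have hrk' : (atq A b).rank = r := le_antisymm (hmax b) hrk
  obtain ⟨w, l1, l2, l3⟩ := fibre_dense deg den_ (atq A b) (atq_symm hA b) (by rw [hrk']; exact hr)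
    v hv0 hvz (half_pos hε)
  have e1 : bs (Fin.append b fun j => w j.succ) = b := by
    funext i
    simp [bs]
  have e2 : fb (Fin.append b fun j => w j.succ) = w := by
    funext i
    refine Fin.cases ?_ (fun j => ?_) i
    · simp [fb, l1]
    · simp [fb]
  refine ⟨rv (Fin.append b fun j => w j.succ), ⟨_, ⟨?_, ?_⟩, rfl⟩, ?_⟩
  · rw [e1]; exact hrk'
  · rw [e1, e2]; exact l2
  · rw [dist_comm, dist_pi_lt_iff hε]
    intro k
    refine Fin.addCases (fun i => ?_) (fun j => ?_) k
    · have h6 := hb i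
      have h7 := ht i
      have h8 : bs x i = x (Fin.castAdd m i) := rfl
      rw [h8] at h7
      rw [Real.dist_eq]
      simp only [rv, Fin.append_left]
      have h9 := h6.trans_le (min_le_right _ _)
      rw [abs_lt] at h7 h9 ⊢
      constructor <;> linarith
    · have h6 := l3 j.succ
      have h7 := hvd j.succ
      have h8 : fb x j.succ = x (Fin.natAdd n j) := by simp [fb]
      rw [h8] at h7
      rw [Real.dist_eq]
      simp only [rv, Fin.append_right]
      rw [abs_lt] at h6 h7 ⊢
      constructor <;> linarith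

/-- a symmetric matrix that is not zero has a vector of nonzero value -/
theorem exists_value {N : ℕ} {M : Matrix (Fin N) (Fin N) ℝ} (hM : M.IsSymm) (h0 : M ≠ 0) :
    ∃ v : Fin N → ℝ, v ⬝ᵥ M *ᵥ v ≠ 0 := by
  by_contra hcon
  push Not at hcon
  apply h0
  have hb : ∀ v w : Fin N → ℝ, v ⬝ᵥ M *ᵥ w = 0 := by
    intro v w
    have h1 := hcon (v + w)
    simp only [mulVec_add, dotProduct_add, add_dotProduct, hcon, symm_dot hM w v] at h1
    linarith
  ext i j
  have := hb (Pi.single i 1) (Pi.single j 1)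
  simpa [Matrix.mulVec_single_one, single_dotProduct] using this

/-- **nonsingular points** -/
theorem smooth_lim {A : PM n m} (hA : A.IsSymm) {r : ℕ} (hr : 5 ≤ r)
    (hne : ∃ t, r ≤ (atq A t).rank) (hmax : ∀ t, (atq A t).rank ≤ r) (x : Fin (n + m) → ℝ)
    (hx : vl A (bs x) (fb x) = 0) (hA0 : atr A (bs x) ≠ 0)
    (hs : atr A (bs x) *ᵥ fb x ≠ 0 ∨ ∃ (k : Fin n) (c : ℝ), c ≠ 0 ∧
      HasDerivAt (fun s : ℝ => vl A (Function.update (bs x) k (bs x k + s)) (fb x)) c 0) :
    x ∈ closure (rv '' pts A {b | (atq A b).rank = r}) := by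
  refine signs_lim hA hr hne hmax x fun ε hε => ?_
  have hfb0 : fb x 0 = 1 := rfl
  by_cases hker : atr A (bs x) *ᵥ fb x = 0
  · -- the base moves
    obtain h | ⟨k, c, hc, hd⟩ := hs
    · exact absurd hker h
    obtain ⟨v, hv⟩ := exists_value (atr_symm hA (bs x)) hA0
    set w : Fin (m + 1) → ℝ := v - v 0 • fb x with hw
    have hw0 : w 0 = 0 := by
      simp [hw, hfb0]
    have hww : vl A (bs x) w = v ⬝ᵥ atr A (bs x) *ᵥ v := by
      have h1 : fb x ⬝ᵥ atr A (bs x) *ᵥ v = 0 := by
        rw [symm_dot (atr_symm hA (bs x)), hker, dotProduct_zero]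
      simp only [vl, hw, mulVec_sub, mulVec_smul, hker, smul_zero, sub_zero, sub_dotProduct,
        smul_dotProduct, h1]
    have hc2 : vl A (bs x) w ≠ 0 := by rw [hww]; exact hv
    -- small multiples of `w`
    obtain ⟨δ, hδ, hδw⟩ : ∃ δ : ℝ, 0 < δ ∧ ∀ j, |δ * w j| < ε := by
      obtain ⟨B, hB⟩ : ∃ B : ℝ, ∀ j, |w j| ≤ B :=
        ⟨∑ j, |w j|, fun j => Finset.single_le_sum (f := fun j => |w j|) (fun i _ => abs_nonneg _)
          (Finset.mem_univ j)⟩
      have hB0 : 0 ≤ B := (abs_nonneg _).trans (hB 0)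
      refine ⟨ε / (2 * (B + 1)), by positivity, fun j => ?_⟩
      rw [abs_mul, abs_of_pos (by positivity : (0 : ℝ) < ε / (2 * (B + 1)))]
      have h2 : ε / (2 * (B + 1)) * |w j| ≤ ε / (2 * (B + 1)) * (B + 1) := by
        gcongr
        linarith [hB j]
      have h3 : ε / (2 * (B + 1)) * (B + 1) = ε / 2 := by field_simp
      linarith
    set u : Fin (m + 1) → ℝ := fb x + δ • w with hu
    have hu0 : u 0 = 1 := by simp [hu, hw0, hfb0]
    have hud : ∀ j, |u j - fb x j| < ε := by
      intro j
      have : u j - fb x j = δ * w j := by simp [hu]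
      rw [this]
      exact hδw j
    have hxd : ∀ j, |fb x j - fb x j| < ε := fun j => by simpa using hε
    have huv : vl A (bs x) u = δ ^ 2 * vl A (bs x) w := by
      rw [hu, vl_add A hA, hx, hker, dotProduct_zero]
      ring
    set g : ℝ → ℝ := fun s => vl A (Function.update (bs x) k (bs x k + s)) (fb x) with hg
    have hg0 : g 0 = 0 := by
      simp only [hg, add_zero, Function.update_eq_self]
      exact hx
    have hupc : Continuous fun s : ℝ => Function.update (bs x) k (bs x k + s) := by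
      fun_prop
    have hupd : ∀ s : ℝ, |s| < ε → ∀ i, |Function.update (bs x) k (bs x k + s) i - bs x i| < ε := by
      intro s hs i
      by_cases hik : i = k
      · subst hik
        simpa using hs
      · rw [Function.update_of_ne hik, sub_self, abs_zero]
        exact hε
    have hcu : Continuous fun s : ℝ => vl A (Function.update (bs x) k (bs x k + s)) u :=
      (vl_continuous_left A u).comp hupc
    have hcu0 : vl A (Function.update (bs x) k (bs x k + 0)) u = δ ^ 2 * vl A (bs x) w := by
      rw [add_zero, Function.update_eq_self, huv]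
    rcases lt_or_gt_of_ne hc2 with h2 | h2
    · -- `w` is negative
      have h3 : vl A (Function.update (bs x) k (bs x k + 0)) u < 0 := by
        rw [hcu0]
        exact mul_neg_of_pos_of_neg (by positivity) h2
      have h4 : ∀ᶠ s in 𝓝 (0 : ℝ), vl A (Function.update (bs x) k (bs x k + s)) u < 0 :=
        hcu.continuousAt.eventually (gt_mem_nhds h3)
      obtain ⟨η, hη, h5⟩ := Metric.eventually_nhds_iff.1 h4
      obtain ⟨-, s, hs1, hs2⟩ := both_signs hd hg0 hc (lt_min hη hε)
      refine ⟨Function.update (bs x) k (bs x k + s), u, fb x, hu0, hfb0,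
        hupd s (hs1.trans_le (min_le_right _ _)), hud, hxd, h5 ?_, hs2⟩
      rw [Real.dist_eq, sub_zero]
      exact hs1.trans_le (min_le_left _ _)
    · have h3 : 0 < vl A (Function.update (bs x) k (bs x k + 0)) u := by
        rw [hcu0]
        positivity
      have h4 : ∀ᶠ s in 𝓝 (0 : ℝ), 0 < vl A (Function.update (bs x) k (bs x k + s)) u :=
        hcu.continuousAt.eventually (lt_mem_nhds h3)
      obtain ⟨η, hη, h5⟩ := Metric.eventually_nhds_iff.1 h4
      obtain ⟨⟨s, hs1, hs2⟩, -⟩ := both_signs hd hg0 hc (lt_min hη hε)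
      refine ⟨Function.update (bs x) k (bs x k + s), fb x, u, hfb0, hu0,
        hupd s (hs1.trans_le (min_le_right _ _)), hxd, hud, hs2, h5 ?_⟩
      rw [Real.dist_eq, sub_zero]
      exact hs1.trans_le (min_le_left _ _)
  · -- the fibre coordinate moves
    obtain ⟨j, hj⟩ : ∃ j : Fin m, (atr A (bs x) *ᵥ fb x) j.succ ≠ 0 := by
      by_contra hcon
      push Not at hcon
      apply hker
      funext i
      refine Fin.cases ?_ (fun j => ?_) i
      · have h1 : vl A (bs x) (fb x) = (atr A (bs x) *ᵥ fb x) 0 := by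
          unfold vl
          rw [dotProduct, Fin.sum_univ_succ]
          simp only [hcon, mul_zero, Finset.sum_const_zero, add_zero, hfb0, one_mul]
        rw [← h1, hx]
        rfl
      · exact hcon j
    set w : Fin (m + 1) → ℝ := Pi.single j.succ 1 with hw
    have hww : w ⬝ᵥ atr A (bs x) *ᵥ fb x = (atr A (bs x) *ᵥ fb x) j.succ := by
      rw [hw, single_dotProduct, one_mul]
    have hw0 : w 0 = 0 := by
      rw [hw, Pi.single_eq_of_ne (Fin.succ_ne_zero j).symm]
    set g : ℝ → ℝ := fun s => vl A (bs x) (fb x + s • w) with hg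
    have hg0 : g 0 = 0 := by
      simp only [hg, zero_smul, add_zero]
      exact hx
    have hgd : HasDerivAt g (2 * (atr A (bs x) *ᵥ fb x) j.succ) 0 := by
      have e : g = fun s => 2 * (atr A (bs x) *ᵥ fb x) j.succ * s + vl A (bs x) w * s ^ 2 := by
        funext s
        simp only [hg]
        rw [vl_add A hA, hx, hww]
        ring
      rw [e]
      have h1 : HasDerivAt (fun s : ℝ => 2 * (atr A (bs x) *ᵥ fb x) j.succ * s)
          (2 * (atr A (bs x) *ᵥ fb x) j.succ) 0 := by
        simpa using (hasDerivAt_id (0 : ℝ)).const_mul (2 * (atr A (bs x) *ᵥ fb x) j.succ)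
      have h2 : HasDerivAt (fun s : ℝ => vl A (bs x) w * s ^ 2) 0 0 := by
        simpa using (hasDerivAt_pow 2 (0 : ℝ)).const_mul (vl A (bs x) w)
      have h3 := h1.add h2
      rw [add_zero] at h3
      exact h3
    have hwd : ∀ s : ℝ, |s| < ε → ∀ i, |(fb x + s • w) i - fb x i| < ε := by
      intro s hs i
      have e : (fb x + s • w) i - fb x i = s * w i := by simp
      rw [e]
      by_cases hi : i = j.succ
      · subst hi
        rw [hw, Pi.single_eq_same, mul_one]
        exact hs
      · rw [hw, Pi.single_eq_of_ne hi, mul_zero, abs_zero]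
        exact hε
    obtain ⟨⟨s1, a1, a2⟩, s2, b1, b2⟩ := both_signs hgd hg0 (mul_ne_zero two_ne_zero hj) hε
    refine ⟨bs x, fb x + s1 • w, fb x + s2 • w, by simp [hw0, hfb0], by simp [hw0, hfb0],
      fun i => by simpa using hε, hwd s1 a1, hwd s2 b1, a2, b2⟩

end dense

end Pool.Agent.N452.QF
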